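import Pool.Agent.Q76.CH.Gen

/-!
# MP_570bb5_an (helper76): averages of translations

`G` acts on `X` and preserves `μ`; all orbit maps send the measure `ν` of `G` to `μ`. The averages
`f ↦ ∫ ψ(g) f(g •) dν` map `L ^ p₂` to `L ^ p₁`, `p₂ ≤ p₁`.
-/

set_option autoImplicit false
set_option linter.unusedSectionVars false

namespace Pool.Agent.Q76.CH

open MeasureTheory Filter Topology Set TopologicalSpace
open scoped ENNReal

section interp

variable {X : Type} [MeasurableSpace X] {μ : Measure X}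

lemma interp {h : X → ℂ} {p₁ p₂ : ℝ≥0∞} (h2 : 1 ≤ p₂) (h12 : p₂ ≤ p₁) (ht : p₁ ≠ ∞) (A : ℝ≥0∞)
    (hA : ∀ᵐ x ∂μ, ‖h x‖ₑ ≤ A) (hA2 : eLpNorm h p₂ μ ≤ A) : eLpNorm h p₁ μ ≤ A := by
  have ht2 : p₂ ≠ ∞ := ne_top_of_le_ne_top ht h12
  have h20 : p₂ ≠ 0 := (zero_lt_one.trans_le h2).ne'
  have h10 : p₁ ≠ 0 := (zero_lt_one.trans_le (h2.trans h12)).ne'
  set r := p₂.toReal with hr
  set s := p₁.toReal with hs
  have hr0 : 0 < r := ENNReal.toReal_pos h20 ht2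
  have hs0 : 0 < s := ENNReal.toReal_pos h10 ht
  have hrs : r ≤ s := ENNReal.toReal_mono ht h12
  rcases eq_or_ne A ∞ with rfl | hAt
  · exact le_top
  rw [eLpNorm_eq_lintegral_rpow_enorm_toReal h10 ht, ← hs]
  rw [eLpNorm_eq_lintegral_rpow_enorm_toReal h20 ht2, ← hr, one_div,
    ENNReal.rpow_inv_le_iff hr0] at hA2
  rw [one_div, ENNReal.rpow_inv_le_iff hs0]
  calc ∫⁻ x, ‖h x‖ₑ ^ s ∂μ ≤ ∫⁻ x, A ^ (s - r) * ‖h x‖ₑ ^ r ∂μ := by
        refine lintegral_mono_ae ?_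
        filter_upwards [hA] with x hx
        rcases eq_or_ne (‖h x‖ₑ) 0 with h0 | h0
        · rw [h0, ENNReal.zero_rpow_of_pos hs0]
          exact zero_le
        · have hne : ‖h x‖ₑ ≠ ∞ := enorm_ne_top
          have e1 : ‖h x‖ₑ ^ s = ‖h x‖ₑ ^ (s - r) * ‖h x‖ₑ ^ r := by
            rw [← ENNReal.rpow_add _ _ h0 hne, sub_add_cancel]
          rw [e1]
          exact mul_le_mul_left (ENNReal.rpow_le_rpow hx (by linarith)) _
    _ = A ^ (s - r) * ∫⁻ x, ‖h x‖ₑ ^ r ∂μ := by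
        rw [lintegral_const_mul' _ _ (ENNReal.rpow_ne_top_of_nonneg (by linarith) hAt)]
    _ ≤ A ^ (s - r) * A ^ r := mul_le_mul_right hA2 _
    _ = A ^ s := by
        rcases eq_or_ne A 0 with rfl | hA0
        · rw [ENNReal.zero_rpow_of_pos hr0, ENNReal.zero_rpow_of_pos hs0, mul_zero]
        · rw [← ENNReal.rpow_add _ _ hA0 hAt, sub_add_cancel]

end interp

section act

variable {G : Type} [Group G] [TopologicalSpace G] [IsTopologicalGroup G] [LocallyCompactSpace G]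
  [T2Space G] [SecondCountableTopology G] [MeasurableSpace G] [BorelSpace G] {ν : Measure G}
  [ν.IsHaarMeasure] {X : Type} [MeasurableSpace X] [MulAction G X] [MeasurableSMul₂ G X]
  {μ : Measure X} [SigmaFinite μ] [SMulInvariantMeasure G X μ]

/-- translation -/
noncomputable def tau {p : ℝ≥0∞} (g : G) (f : Lp ℂ p μ) : Lp ℂ p μ :=
  Lp.compMeasurePreserving (g • ·) (measurePreserving_smul g μ) f

omit [SigmaFinite μ] [TopologicalSpace G] [IsTopologicalGroup G] [LocallyCompactSpace G]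
  [T2Space G] [SecondCountableTopology G] [BorelSpace G] in
lemma tau_coe {p : ℝ≥0∞} (g : G) (f : Lp ℂ p μ) : ⇑(tau g f) =ᵐ[μ] fun x => f (g • x) :=
  Lp.coeFn_compMeasurePreserving f _

omit [SigmaFinite μ] [TopologicalSpace G] [IsTopologicalGroup G] [LocallyCompactSpace G]
  [T2Space G] [SecondCountableTopology G] [BorelSpace G] in
lemma tau_norm {p : ℝ≥0∞} (g : G) (f : Lp ℂ p μ) : ‖tau g f‖ = ‖f‖ :=
  Lp.norm_compMeasurePreserving f _

omit [SigmaFinite μ] [TopologicalSpace G] [IsTopologicalGroup G] [LocallyCompactSpace G]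
  [T2Space G] [SecondCountableTopology G] [BorelSpace G] in
lemma tau_add {p : ℝ≥0∞} (g : G) (f h : Lp ℂ p μ) : tau g (f + h) = tau g f + tau g h :=
  map_add (Lp.compMeasurePreserving (E := ℂ) (p := p) (g • · : X → X)
    (measurePreserving_smul g μ)) f h

omit [SigmaFinite μ] [TopologicalSpace G] [IsTopologicalGroup G] [LocallyCompactSpace G]
  [T2Space G] [SecondCountableTopology G] [BorelSpace G] in
lemma tau_smul {p : ℝ≥0∞} (g : G) (c : ℂ) (f : Lp ℂ p μ) : tau g (c • f) = c • tau g f := by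
  apply Lp.ext
  have h1 := (measurePreserving_smul g μ).quasiMeasurePreserving.ae (Lp.coeFn_smul c f)
  filter_upwards [tau_coe g (c • f), tau_coe g f, Lp.coeFn_smul c (tau g f), h1] with x a b d e
  rw [a, d, Pi.smul_apply, b, e, Pi.smul_apply]

variable {p : ℝ≥0∞} [hp : Fact (1 ≤ p)]

/-- the average of the translates -/
noncomputable def Jb (ν : Measure G) (ψ : G → ℂ) (f : Lp ℂ p μ) : Lp ℂ p μ := ∫ g, ψ g • tau g f ∂ν

variable (hc : ∀ f : Lp ℂ p μ, Continuous fun g : G => tau g f) {ψ : G → ℂ} (hψ : Continuous ψ)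
  (hψc : HasCompactSupport ψ)

include hc hψ hψc in
lemma Jb_int (f : Lp ℂ p μ) : Integrable (fun g => ψ g • tau g f) ν :=
  (hψ.smul (hc f)).integrable_of_hasCompactSupport hψc.smul_right

include hc hψ hψc in
lemma Jb_coe (f : Lp ℂ p μ) :
    ⇑(Jb ν ψ f) =ᵐ[μ] fun x => ∫ g, ψ g * f (g • x) ∂ν := by
  refine coe_int (fun g => ψ g • tau g f) (Jb_int hc hψ hψc f) (fun g x => ψ g * f (g • x)) ?_
    fun g => ?_
  · refine AEStronglyMeasurable.mul ?_ ?_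
    · exact (hψ.comp continuous_id).aestronglyMeasurable.comp_fst
    · exact ((Lp.stronglyMeasurable f).comp_measurable
        (measurable_fst.smul measurable_snd)).aestronglyMeasurable
  · filter_upwards [Lp.coeFn_smul (ψ g) (tau g f), tau_coe g f] with x h1 h2
    rw [h1, Pi.smul_apply, h2, smul_eq_mul]

include hc hψ hψc in
lemma Jb_add (f h : Lp ℂ p μ) : Jb ν ψ (f + h) = Jb ν ψ f + Jb ν ψ h := by
  unfold Jb
  rw [← integral_add (Jb_int hc hψ hψc f) (Jb_int hc hψ hψc h)]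
  refine integral_congr_ae (Eventually.of_forall fun g => ?_)
  simp only [tau_add, smul_add]

lemma Jb_smul (c : ℂ) (f : Lp ℂ p μ) : Jb ν ψ (c • f) = c • Jb ν ψ f := by
  unfold Jb
  rw [← integral_smul]
  refine integral_congr_ae (Eventually.of_forall fun g => ?_)
  simp only [tau_smul]
  rw [smul_comm]

lemma Jb_norm (f : Lp ℂ p μ) : ‖Jb ν ψ f‖ ≤ (∫ g, ‖ψ g‖ ∂ν) * ‖f‖ := by
  unfold Jb
  refine (norm_integral_le_integral_norm _).trans (le_of_eq ?_)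
  rw [← integral_mul_const]
  refine integral_congr_ae (Eventually.of_forall fun g => ?_)
  simp only [norm_smul, tau_norm]

variable (hm : ∀ x : X, MeasurePreserving (fun g : G => g • x) ν μ)

include hm hψ hψc in
/-- the sup bound -/
lemma sup_bd : ∃ C : ℝ, 0 ≤ C ∧ ∀ (f : Lp ℂ p μ) (x : X), ‖∫ g, ψ g * f (g • x) ∂ν‖ ≤ C * ‖f‖ := by
  obtain ⟨M, hM⟩ := hψc.exists_bound_of_continuous hψ
  have hfin : ν (tsupport ψ) ≠ ∞ := hψc.isCompact.measure_lt_top.ne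
  obtain ⟨C₀, hC₀⟩ := norm_bd (μ := ν) (p := p) (tsupport ψ) hfin
  refine ⟨|M| * |C₀|, by positivity, fun f x => ?_⟩
  set u : Lp ℂ p ν := Lp.compMeasurePreserving (fun g : G => g • x) (hm x) f with hu
  have hu1 : ⇑u =ᵐ[ν] fun g => f (g • x) := Lp.coeFn_compMeasurePreserving f _
  have hu2 : ‖u‖ = ‖f‖ := Lp.norm_compMeasurePreserving f _
  have h1 : ∫ g, ψ g * f (g • x) ∂ν = ∫ g in tsupport ψ, ψ g * u g ∂ν := by
    rw [setIntegral_eq_integral_of_forall_compl_eq_zero]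
    · refine integral_congr_ae ?_
      filter_upwards [hu1] with g hg
      rw [hg]
    · intro g hg
      rw [image_eq_zero_of_notMem_tsupport hg, zero_mul]
  rw [h1]
  refine (norm_integral_le_integral_norm _).trans ?_
  have h2 : IntegrableOn (fun g => u g) (tsupport ψ) ν := integrableOn_Lp_of_measure_ne_top u hp.out hfin
  calc ∫ g in tsupport ψ, ‖ψ g * u g‖ ∂ν ≤ ∫ g in tsupport ψ, |M| * ‖u g‖ ∂ν := by
        refine integral_mono_of_nonneg (Eventually.of_forall fun _ => norm_nonneg _)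
          (h2.norm.const_mul _) (Eventually.of_forall fun g => ?_)
        simp only [norm_mul]
        exact mul_le_mul_of_nonneg_right ((hM g).trans (le_abs_self M)) (norm_nonneg _)
    _ = |M| * ∫ g in tsupport ψ, ‖u g‖ ∂ν := integral_const_mul _ _
    _ ≤ |M| * (C₀ * ‖u‖) := mul_le_mul_of_nonneg_left (hC₀ u) (abs_nonneg _)
    _ ≤ |M| * (|C₀| * ‖u‖) := mul_le_mul_of_nonneg_left
        (mul_le_mul_of_nonneg_right (le_abs_self _) (norm_nonneg _)) (abs_nonneg _)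
    _ = |M| * |C₀| * ‖f‖ := by rw [hu2, mul_assoc]

include hc hm hψ hψc in
/-- the smoothing bound -/
lemma smooth {p₁ : ℝ≥0∞} (h12 : p ≤ p₁) (ht : p₁ ≠ ∞) : ∃ C : ℝ, 0 ≤ C ∧ ∀ f : Lp ℂ p μ,
    eLpNorm (Jb ν ψ f) p₁ μ ≤ ENNReal.ofReal (C * ‖f‖) := by
  obtain ⟨C, hC, hC2⟩ := sup_bd hψ hψc hm (p := p)
  refine ⟨max C (∫ g, ‖ψ g‖ ∂ν), hC.trans (le_max_left _ _), fun f => ?_⟩
  refine interp hp.out h12 ht _ ?_ ?_
  · filter_upwards [Jb_coe hc hψ hψc (ν := ν) f] with x hx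
    rw [hx, ← ofReal_norm]
    exact ENNReal.ofReal_le_ofReal ((hC2 f x).trans
      (mul_le_mul_of_nonneg_right (le_max_left _ _) (norm_nonneg _)))
  · rw [← ENNReal.ofReal_toReal (Lp.eLpNorm_ne_top (Jb ν ψ f)), ← Lp.norm_def]
    exact ENNReal.ofReal_le_ofReal ((Jb_norm f).trans
      (mul_le_mul_of_nonneg_right (le_max_right _ _) (norm_nonneg _)))

/-! ### the operator from `L ^ p₂` to `L ^ p₁` -/

variable {p₁ : ℝ≥0∞} [hp1 : Fact (1 ≤ p₁)] (h12 : p ≤ p₁) (ht : p₁ ≠ ∞)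

include hc hm hψ hψc h12 ht in
lemma exists_J : ∃ J : Lp ℂ p μ →L[ℂ] Lp ℂ p₁ μ, ∀ f, ⇑(J f) =ᵐ[μ] Jb ν ψ f := by
  obtain ⟨C, hC, hC2⟩ := smooth hc hψ hψc hm h12 ht (ν := ν)
  have hmem : ∀ f : Lp ℂ p μ, MemLp (Jb ν ψ f) p₁ μ := fun f =>
    ⟨(Lp.memLp _).1, (hC2 f).trans_lt ENNReal.ofReal_lt_top⟩
  let J₀ : Lp ℂ p μ →ₗ[ℂ] Lp ℂ p₁ μ :=
    { toFun := fun f => (hmem f).toLp _
      map_add' := fun f h => by
        apply Lp.ext
        filter_upwards [(hmem (f + h)).coeFn_toLp, (hmem f).coeFn_toLp, (hmem h).coeFn_toLp,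
          Lp.coeFn_add ((hmem f).toLp _) ((hmem h).toLp _),
          Lp.coeFn_add (Jb ν ψ f) (Jb ν ψ h)] with x a b c d e
        rw [a, d, Pi.add_apply, b, c, Jb_add hc hψ hψc, e, Pi.add_apply]
      map_smul' := fun c f => by
        apply Lp.ext
        filter_upwards [(hmem (c • f)).coeFn_toLp, (hmem f).coeFn_toLp,
          Lp.coeFn_smul c ((hmem f).toLp _), Lp.coeFn_smul c (Jb ν ψ f)] with x a b d e
        rw [RingHom.id_apply, a, d, Pi.smul_apply, b, Jb_smul, e, Pi.smul_apply] }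
  refine ⟨J₀.mkContinuous C fun f => ?_, fun f => (hmem f).coeFn_toLp⟩
  show ‖(hmem f).toLp _‖ ≤ _
  rw [Lp.norm_toLp]
  exact ENNReal.toReal_le_of_le_ofReal (mul_nonneg hC (norm_nonneg _)) (hC2 f)

include hc hm hψ hψc in
/-- the averages of functions which agree almost everywhere agree -/
lemma Jb_congr (hc1 : ∀ f : Lp ℂ p₁ μ, Continuous fun g : G => tau g f) (f : Lp ℂ p μ)
    (f₁ : Lp ℂ p₁ μ) (hf : ⇑f₁ =ᵐ[μ] f) : ⇑(Jb ν ψ f₁) =ᵐ[μ] Jb ν ψ f := by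
  filter_upwards [Jb_coe hc hψ hψc (ν := ν) f, Jb_coe hc1 hψ hψc (ν := ν) f₁] with x a b
  rw [a, b]
  refine integral_congr_ae ?_
  filter_upwards [(hm x).quasiMeasurePreserving.ae hf] with g hg
  rw [hg]

include hc hm hψ hψc h12 ht in
/-- the operator intertwines -/
theorem intertwine (hc1 : ∀ f : Lp ℂ p₁ μ, Continuous fun g : G => tau g f)
    (T₁ : Lp ℂ p₁ μ →L[ℂ] Lp ℂ p₁ μ) (T₂ : Lp ℂ p μ →L[ℂ] Lp ℂ p μ)
    (hT₁ : ∀ (g : G) f, T₁ (tau g f) = tau g (T₁ f))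
    (hd : Dense {f : Lp ℂ p μ | ∃ f₁ : Lp ℂ p₁ μ, ⇑f₁ =ᵐ[μ] f ∧ ⇑(T₁ f₁) =ᵐ[μ] T₂ f}) :
    ∃ J : Lp ℂ p μ →L[ℂ] Lp ℂ p₁ μ, (∀ f, T₁ (J f) = J (T₂ f)) ∧
      ∀ (f : Lp ℂ p μ) (f₁ : Lp ℂ p₁ μ), ⇑f₁ =ᵐ[μ] f → J f = Jb ν ψ f₁ := by
  obtain ⟨J, hJ⟩ := exists_J hc hψ hψc hm h12 ht (ν := ν)
  have hJ1 : ∀ (f : Lp ℂ p μ) (f₁ : Lp ℂ p₁ μ), ⇑f₁ =ᵐ[μ] f → J f = Jb ν ψ f₁ := by
    intro f f₁ hf
    apply Lp.ext
    filter_upwards [hJ f, Jb_congr hc hψ hψc hm hc1 f f₁ hf] with x a b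
    rw [a, b]
  refine ⟨J, fun f => ?_, hJ1⟩
  have hcl : IsClosed {f : Lp ℂ p μ | T₁ (J f) = J (T₂ f)} :=
    isClosed_eq (T₁.continuous.comp J.continuous) (J.continuous.comp T₂.continuous)
  refine hcl.closure_subset_iff.2 ?_ (hd f)
  rintro f ⟨f₁, hf, hf1⟩
  show T₁ (J f) = J (T₂ f)
  rw [hJ1 f f₁ hf, hJ1 (T₂ f) (T₁ f₁) hf1]
  unfold Jb
  rw [← T₁.integral_comp_comm (Jb_int hc1 hψ hψc f₁)]
  refine integral_congr_ae (Eventually.of_forall fun g => ?_)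
  simp only [map_smul, hT₁]

end act

section approx

variable {G : Type} [Group G] [TopologicalSpace G] [IsTopologicalGroup G] [LocallyCompactSpace G]
  [T2Space G] [SecondCountableTopology G] [MeasurableSpace G] [BorelSpace G] {ν : Measure G}
  [ν.IsHaarMeasure] {X : Type} [MeasurableSpace X] [MulAction G X] [MeasurableSMul₂ G X]
  {μ : Measure X} [SigmaFinite μ] [SMulInvariantMeasure G X μ]

lemma bump (N : Set G) (hN : IsOpen N) (h1 : (1 : G) ∈ N) : ∃ ψ : G → ℂ, Continuous ψ ∧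
    HasCompactSupport ψ ∧ (∀ g, g ∉ N → ψ g = 0) ∧ (∫ g, ‖ψ g‖ ∂ν) = 1 ∧ (∫ g, ψ g ∂ν) = 1 := by
  obtain ⟨f, hf1, hf2, hf3, hf4⟩ := exists_continuous_one_zero_of_isCompact
    (isCompact_singleton (x := (1 : G))) hN.isClosed_compl
    (by rw [disjoint_compl_right_iff_subset, singleton_subset_iff]; exact h1)
  have hf0 : ∀ g, 0 ≤ f g := fun g => (hf4 g).1
  have hpos : 0 < ∫ g, f g ∂ν := f.continuous.integral_pos_of_hasCompactSupport_nonneg_nonzero hf3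
    hf0 (x := 1) (by rw [hf1 rfl]; exact one_ne_zero)
  set c : ℝ := ∫ g, f g ∂ν with hc
  refine ⟨fun g => ((f g / c : ℝ) : ℂ), ?_, ?_, fun g hg => ?_, ?_, ?_⟩
  · exact Complex.continuous_ofReal.comp (f.continuous.div_const c)
  · exact hf3.comp_left (g := fun t : ℝ => ((t / c : ℝ) : ℂ)) (by simp)
  · have h2 : f g = 0 := hf2 hg
    show ((f g / c : ℝ) : ℂ) = 0
    rw [h2, zero_div, Complex.ofReal_zero]
  · have h2 : ∀ g, ‖((f g / c : ℝ) : ℂ)‖ = f g / c := fun g => by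
      rw [Complex.norm_real, Real.norm_eq_abs, abs_of_nonneg (div_nonneg (hf0 g) hpos.le)]
    simp only [h2]
    rw [integral_div, ← hc, div_self hpos.ne']
  · rw [integral_complex_ofReal, integral_div, ← hc, div_self hpos.ne', Complex.ofReal_one]

/-- approximation of the identity -/
theorem approx {p : ℝ≥0∞} [hp : Fact (1 ≤ p)] (hc : ∀ f : Lp ℂ p μ, Continuous fun g : G => tau g f)
    (h1 : ∀ f : Lp ℂ p μ, tau (1 : G) f = f) (u w : Lp ℂ p μ) (ε : ℝ) (hε : 0 < ε) :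
    ∃ ψ : G → ℂ, Continuous ψ ∧ HasCompactSupport ψ ∧ ‖Jb ν ψ u - u‖ ≤ ε ∧ ‖Jb ν ψ w - w‖ ≤ ε := by
  have hN : ∀ f : Lp ℂ p μ, IsOpen {g : G | ‖tau g f - f‖ < ε} := fun f =>
    isOpen_lt ((hc f).sub continuous_const).norm continuous_const
  obtain ⟨ψ, hψ, hψc, hψ0, hψ1, hψ2⟩ := bump (ν := ν) ({g : G | ‖tau g u - u‖ < ε} ∩
    {g : G | ‖tau g w - w‖ < ε}) ((hN u).inter (hN w)) (by
      constructor
      · show ‖tau (1:G) u - u‖ < ε
        rw [h1, sub_self, norm_zero]; exact hε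
      · show ‖tau (1:G) w - w‖ < ε
        rw [h1, sub_self, norm_zero]; exact hε)
  have hψi : Integrable ψ ν := hψ.integrable_of_hasCompactSupport hψc
  have key : ∀ f : Lp ℂ p μ, (∀ g, ψ g ≠ 0 → ‖tau g f - f‖ < ε) → ‖Jb ν ψ f - f‖ ≤ ε := by
    intro f hf
    have e1 : ∫ g, ψ g • f ∂ν = f := by rw [integral_smul_const, hψ2, one_smul]
    have e2 : Jb ν ψ f - f = ∫ g, ψ g • (tau g f - f) ∂ν := by
      have e3 : ∫ g, ψ g • (tau g f - f) ∂ν = ∫ g, (ψ g • tau g f - ψ g • f) ∂ν := by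
        refine integral_congr_ae (Eventually.of_forall fun g => ?_)
        simp only [smul_sub]
      rw [e3, integral_sub (Jb_int hc hψ hψc f) (hψi.smul_const f), e1]
      rfl
    rw [e2]
    refine (norm_integral_le_integral_norm _).trans ?_
    calc ∫ g, ‖ψ g • (tau g f - f)‖ ∂ν ≤ ∫ g, ‖ψ g‖ * ε ∂ν := by
          refine integral_mono_of_nonneg (Eventually.of_forall fun _ => norm_nonneg _)
            (hψi.norm.mul_const ε) (Eventually.of_forall fun g => ?_)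
          simp only [norm_smul]
          rcases eq_or_ne (ψ g) 0 with h0 | h0
          · rw [h0, norm_zero, zero_mul, zero_mul]
          · exact mul_le_mul_of_nonneg_left (hf g h0).le (norm_nonneg _)
      _ = ε := by rw [integral_mul_const, hψ1, one_mul]
  refine ⟨ψ, hψ, hψc, key u fun g hg => ?_, key w fun g hg => ?_⟩
  · by_contra hcon
    exact hg (hψ0 g fun h => hcon h.1)
  · by_contra hcon
    exact hg (hψ0 g fun h => hcon h.2)

/-- functions in both spaces are dense -/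
lemma common (p p₁ : ℝ≥0∞) [hp : Fact (1 ≤ p)] [hp1 : Fact (1 ≤ p₁)] (h12 : p ≤ p₁) (ht : p₁ ≠ ∞)
    (U : Set (Lp ℂ p₁ μ)) (hU : IsOpen U) (hUn : U.Nonempty) :
    ∃ (u₁ : Lp ℂ p₁ μ) (u : Lp ℂ p μ), u₁ ∈ U ∧ ⇑u₁ =ᵐ[μ] u := by
  obtain ⟨v, hv⟩ := hUn
  obtain ⟨ε, hε, hball⟩ := Metric.isOpen_iff.1 hU v hv
  obtain ⟨s, hs1, hs2⟩ := (Lp.memLp v).exists_simpleFunc_eLpNorm_sub_lt ht
    (ε := ENNReal.ofReal ε) (ENNReal.ofReal_pos.2 hε).ne'
  have ht2 : p ≠ ∞ := ne_top_of_le_ne_top ht h12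
  have hs3 : MemLp s p μ := by
    rw [SimpleFunc.memLp_iff (zero_lt_one.trans_le hp.out).ne' ht2]
    exact (SimpleFunc.memLp_iff (zero_lt_one.trans_le hp1.out).ne' ht).1 hs2
  refine ⟨hs2.toLp s, hs3.toLp s, hball ?_, hs2.coeFn_toLp.trans hs3.coeFn_toLp.symm⟩
  rw [Metric.mem_ball, dist_comm, dist_eq_norm, Lp.norm_def]
  have h3 : ⇑(v - hs2.toLp s) =ᵐ[μ] ⇑v - ⇑s := by
    filter_upwards [Lp.coeFn_sub v (hs2.toLp s), hs2.coeFn_toLp] with x a b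
    rw [a, Pi.sub_apply, Pi.sub_apply, b]
  rw [eLpNorm_congr_ae h3]
  exact (ENNReal.toReal_lt_of_lt_ofReal hs1)

/-- the transfer of the dynamics -/
theorem main (p p₁ : ℝ≥0∞) [hp : Fact (1 ≤ p)] [hp1 : Fact (1 ≤ p₁)] (h12 : p ≤ p₁) (ht : p₁ ≠ ∞)
    [SecondCountableTopology (Lp ℂ p₁ μ)]
    (hm : ∀ x : X, MeasurePreserving (fun g : G => g • x) ν μ)
    (hc : ∀ f : Lp ℂ p μ, Continuous fun g : G => tau g f)
    (hc1 : ∀ f : Lp ℂ p₁ μ, Continuous fun g : G => tau g f)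
    (T₁ : Lp ℂ p₁ μ →L[ℂ] Lp ℂ p₁ μ) (T₂ : Lp ℂ p μ →L[ℂ] Lp ℂ p μ)
    (hT₁ : ∀ (g : G) f, T₁ (tau g f) = tau g (T₁ f))
    (hd : Dense {f : Lp ℂ p μ | ∃ f₁ : Lp ℂ p₁ μ, ⇑f₁ =ᵐ[μ] f ∧ ⇑(T₁ f₁) =ᵐ[μ] T₂ f}) :
    (Hypercyclic T₂ → Hypercyclic T₁) ∧ (Chaotic T₂ → Chaotic T₁) := by
  have h1 : ∀ f : Lp ℂ p₁ μ, tau (1 : G) f = f := by
    intro f
    apply Lp.ext
    filter_upwards [tau_coe (1 : G) f] with x hx
    rw [hx, one_smul]
  refine transfer T₁ T₂ fun U W hU hW hUn hWn => ?_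
  obtain ⟨u₁, u, hu, huu⟩ := common p p₁ h12 ht U hU hUn
  obtain ⟨w₁, w, hw, hww⟩ := common p p₁ h12 ht W hW hWn
  obtain ⟨ε, hε, hball⟩ := Metric.isOpen_iff.1 hU u₁ hu
  obtain ⟨δ, hδ, hball'⟩ := Metric.isOpen_iff.1 hW w₁ hw
  obtain ⟨ψ, hψ, hψc, hψu, hψw⟩ := approx (ν := ν) hc1 h1 u₁ w₁ (min ε δ / 2) (by positivity)
  obtain ⟨J, hJ, hJ1⟩ := intertwine hc hψ hψc hm h12 ht hc1 T₁ T₂ hT₁ hd
  refine ⟨J, hJ, ⟨u, hball ?_⟩, ⟨w, hball' ?_⟩⟩
  · rw [Metric.mem_ball, dist_eq_norm, hJ1 u u₁ huu]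
    have := min_le_left ε δ
    have h2 : 0 < min ε δ := by positivity
    linarith
  · rw [Metric.mem_ball, dist_eq_norm, hJ1 w w₁ hww]
    have := min_le_right ε δ
    have h2 : 0 < min ε δ := by positivity
    linarith

end approx

end Pool.Agent.Q76.CH
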