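import Pool.Agent.Q76.CH.Smo

/-!
# MP_570bb5_an (helper76): the final theorem
-/

set_option autoImplicit false
set_option linter.unusedSectionVars false

namespace Pool.Agent.Q76.CH

open MeasureTheory Filter Topology Set TopologicalSpace
open scoped ENNReal Pointwise Manifold ContDiff

section defs

variable {X : Type} [MeasurableSpace X] (μ : Measure X) (p : ℝ≥0∞) [Fact (1 ≤ p)]

/-- the Banach space `L ^ p (μ)` of complex functions -/
def LX : Type := Lp ℂ p μ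

noncomputable instance lxG : NormedAddCommGroup (LX μ p) :=
  inferInstanceAs (NormedAddCommGroup (Lp ℂ p μ))

noncomputable instance lxS : NormedSpace ℂ (LX μ p) :=
  inferInstanceAs (NormedSpace ℂ (Lp ℂ p μ))

/-- bounded operators of `L ^ p (μ)` -/
def Op : Type := LX μ p →L[ℂ] LX μ p

variable {μ p}

/-- the function (up to null sets) -/
noncomputable def LX.fn (F : LX μ p) : X → ℂ := ⇑(show Lp ℂ p μ from F)

/-- the value of the operator -/
noncomputable def Op.ap (T : Op μ p) (F : LX μ p) : LX μ p := (show LX μ p →L[ℂ] LX μ p from T) F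

/-- some orbit is dense -/
def Op.Hyper (T : Op μ p) : Prop := Hypercyclic (E := LX μ p) T

/-- hypercyclic with a dense set of periodic points -/
def Op.Chaos (T : Op μ p) : Prop := Chaotic (E := LX μ p) T

variable [TopologicalSpace X] {E : Type} [NormedAddCommGroup E] [NormedSpace ℝ E]
  {H : Type} [TopologicalSpace H] (I : ModelWithCorners ℝ E H) [ChartedSpace H X]

/-- `T`, given on the smooth functions with compact support, commutes with the action of `G` -/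
def Commutes (μ : Measure X) (G : Type) [SMul G X] (T : (X → ℂ) → (X → ℂ)) : Prop :=
  ∀ g : G, ∀ f ∈ Test I X, T (fun x => f (g • x)) =ᵐ[μ] fun x => T f (g • x)

/-- `T` extends to the bounded operator `Tp` of `L ^ p (μ)` -/
def Extends (T : (X → ℂ) → (X → ℂ)) (Tp : Op μ p) : Prop :=
  ∀ f ∈ Test I X, ∀ F : LX μ p, F.fn =ᵐ[μ] f → (Tp.ap F).fn =ᵐ[μ] T f

end defs

variable {G : Type} [Group G] [TopologicalSpace G] [IsTopologicalGroup G] [LocallyCompactSpace G]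
  [T2Space G] [SecondCountableTopology G] [MeasurableSpace G] [BorelSpace G] (ν : Measure G)
  [ν.IsHaarMeasure] [ν.IsMulRightInvariant] (K : Subgroup G)
  [MeasurableSpace (G ⧸ K)] [BorelSpace (G ⧸ K)]

lemma quo_t2 (hK : IsCompact (K : Set G)) : T2Space (G ⧸ K) := by
  rw [t2Space_iff_of_isOpenQuotientMap (QuotientGroup.isOpenQuotientMap_mk (N := K))]
  have h1 : {q : G × G | (q.1 : G ⧸ K) = q.2} = (fun q : G × G => q.1⁻¹ * q.2) ⁻¹' (K : Set G) := by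
    ext q
    exact QuotientGroup.eq
  rw [h1]
  exact hK.isClosed.preimage (continuous_fst.inv.mul continuous_snd)

lemma muK_loc (hK : IsCompact (K : Set G)) : IsLocallyFiniteMeasure (muK ν K) := by
  refine ⟨fun x => ?_⟩
  obtain ⟨g, rfl⟩ := QuotientGroup.mk_surjective x
  obtain ⟨C, hC, hg⟩ := exists_compact_mem_nhds g
  have ho : IsOpen (pj K '' interior C) :=
    QuotientGroup.isOpenQuotientMap_mk.isOpenMap _ isOpen_interior
  refine ⟨pj K '' interior C, ho.mem_nhds ⟨g, mem_interior_iff_mem_nhds.2 hg, rfl⟩, ?_⟩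
  have h2 : pj K ⁻¹' (pj K '' interior C) = interior C * (K : Set G) :=
    QuotientGroup.preimage_image_mk_eq_mul K _
  unfold muK
  rw [Measure.map_apply (pj_cont K).measurable ho.measurableSet, h2]
  exact (measure_mono (Set.mul_subset_mul_right interior_subset)).trans_lt
    (hC.mul hK).measure_lt_top

variable {E : Type} [NormedAddCommGroup E] [NormedSpace ℝ E] [FiniteDimensional ℝ E]
  {H : Type} [TopologicalSpace H] (I : ModelWithCorners ℝ E H) [ChartedSpace H (G ⧸ K)]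
  [IsManifold I ∞ (G ⧸ K)]

lemma test_smul (hsm : ∀ g : G, ContMDiff I I ∞ fun x : G ⧸ K => g • x) (g : G)
    {f : G ⧸ K → ℂ} (hf : f ∈ Test I (G ⧸ K)) : (fun x => f (g • x)) ∈ Test I (G ⧸ K) :=
  ⟨hf.1.comp (hsm g), hf.2.comp_homeomorph (Homeomorph.smul g)⟩

theorem passes₀ (hK : IsCompact (K : Set G))
    (hsm : ∀ g : G, ContMDiff I I ∞ fun x : G ⧸ K => g • x)
    (p₂ p₁ : ℝ≥0∞) [Fact (1 ≤ p₂)] [Fact (1 ≤ p₁)] (h21 : p₂ ≤ p₁) (ht : p₁ ≠ (⊤ : ℝ≥0∞))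
    (T : (G ⧸ K → ℂ) → (G ⧸ K → ℂ)) (hT : Commutes I (muK ν K) G T)
    (T₁ : Lp ℂ p₁ (muK ν K) →L[ℂ] Lp ℂ p₁ (muK ν K))
    (hT₁ : ∀ f ∈ Test I (G ⧸ K), ∀ F : Lp ℂ p₁ (muK ν K), ⇑F =ᵐ[muK ν K] f →
      ⇑(T₁ F) =ᵐ[muK ν K] T f)
    (T₂ : Lp ℂ p₂ (muK ν K) →L[ℂ] Lp ℂ p₂ (muK ν K))
    (hT₂ : ∀ f ∈ Test I (G ⧸ K), ∀ F : Lp ℂ p₂ (muK ν K), ⇑F =ᵐ[muK ν K] f →
      ⇑(T₂ F) =ᵐ[muK ν K] T f) :
    (Hypercyclic T₂ → Hypercyclic T₁) ∧ (Chaotic T₂ → Chaotic T₁) := by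
  have : T2Space (G ⧸ K) := quo_t2 K hK
  have : SigmaFinite (muK ν K) := muK_fin ν K hK
  have : IsLocallyFiniteMeasure (muK ν K) := muK_loc ν K hK
  have : SecondCountableTopology (G ⧸ K) := inferInstance
  have : LocallyCompactSpace (G ⧸ K) := inferInstance
  have : Fact (p₁ ≠ (⊤ : ℝ≥0∞)) := ⟨ht⟩
  have ht2 : p₂ ≠ (⊤ : ℝ≥0∞) := ne_top_of_le_ne_top ht h21
  have hcomm : ∀ (g : G) (F : Lp ℂ p₁ (muK ν K)), T₁ (tau g F) = tau g (T₁ F) := by
    intro g F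
    have hiso : Isometry (tau g : Lp ℂ p₁ (muK ν K) → Lp ℂ p₁ (muK ν K)) :=
      Lp.isometry_compMeasurePreserving (measurePreserving_smul g (muK ν K))
    have hcl : IsClosed {F : Lp ℂ p₁ (muK ν K) | T₁ (tau g F) = tau g (T₁ F)} :=
      isClosed_eq (T₁.continuous.comp hiso.continuous) (hiso.continuous.comp T₁.continuous)
    refine hcl.closure_subset_iff.2 ?_ (test_dense I (μ := muK ν K) p₁ ht F)
    rintro F ⟨f, hf, hFf⟩
    show T₁ (tau g F) = tau g (T₁ F)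
    apply Lp.ext
    have a1 : ⇑(tau g F) =ᵐ[muK ν K] fun x => f (g • x) := by
      filter_upwards [tau_coe g F,
        (measurePreserving_smul g (muK ν K)).quasiMeasurePreserving.ae hFf] with x b1 b2
      rw [b1, b2]
    have a2 := hT₁ _ (test_smul K I hsm g hf) _ a1
    have a3 := hT g f hf
    have a4 := tau_coe g (T₁ F)
    have a5 := (measurePreserving_smul g (muK ν K)).quasiMeasurePreserving.ae (hT₁ f hf F hFf)
    filter_upwards [a2, a3, a4, a5] with x b2 b3 b4 b5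
    rw [b2, b3, b4, b5]
  refine main (ν := ν) p₂ p₁ h21 ht (orbit_mp ν K) (tau_cont ν K ht2) (tau_cont ν K ht) T₁ T₂
    hcomm ?_
  refine (test_dense I (μ := muK ν K) p₂ ht2).mono ?_
  rintro F ⟨f, hf, hFf⟩
  have hm : MemLp f p₁ (muK ν K) := test_memLp I hf p₁
  refine ⟨hm.toLp f, hm.coeFn_toLp.trans hFf.symm, ?_⟩
  exact (hT₁ f hf _ hm.coeFn_toLp).trans (hT₂ f hf F hFf).symm

theorem passes (hK : IsCompact (K : Set G))
    (hsm : ∀ g : G, ContMDiff I I ∞ fun x : G ⧸ K => g • x)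
    (p₂ p₁ : ℝ≥0∞) [Fact (1 ≤ p₂)] [Fact (1 ≤ p₁)] (h21 : p₂ ≤ p₁) (ht : p₁ ≠ (⊤ : ℝ≥0∞))
    (T : (G ⧸ K → ℂ) → (G ⧸ K → ℂ)) (hT : Commutes I (muK ν K) G T)
    (T₁ : Op (muK ν K) p₁) (hT₁ : Extends I T T₁) (T₂ : Op (muK ν K) p₂) (hT₂ : Extends I T T₂) :
    (T₂.Hyper → T₁.Hyper) ∧ (T₂.Chaos → T₁.Chaos) :=
  passes₀ ν K I hK hsm p₂ p₁ h21 ht T hT T₁ hT₁ T₂ hT₂

end Pool.Agent.Q76.CH
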