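import Mathlib

/-!
# MP_570bb5_an (helper76): general facts

Bochner integrals in `L ^ p` are pointwise integrals; hypercyclic operators and transitivity.
-/

set_option autoImplicit false

namespace Pool.Agent.Q76.CH

open MeasureTheory Filter Topology Set TopologicalSpace
open scoped ENNReal

/-! ### Linear dynamics -/

/-- hypercyclic -/
def Hypercyclic {E : Type} [NormedAddCommGroup E] [NormedSpace ℂ E] (T : E →L[ℂ] E) : Prop :=
  ∃ f : E, Dense (range fun n : ℕ => (T ^ n) f)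

/-- chaotic: hypercyclic with a dense set of periodic points -/
def Chaotic {E : Type} [NormedAddCommGroup E] [NormedSpace ℂ E] (T : E →L[ℂ] E) : Prop :=
  Hypercyclic T ∧ Dense {f : E | ∃ N : ℕ, 1 ≤ N ∧ (T ^ N) f = f}

/-- topologically transitive -/
def Trans {E : Type} [NormedAddCommGroup E] [NormedSpace ℂ E] (T : E →L[ℂ] E) : Prop :=
  ∀ U W : Set E, IsOpen U → IsOpen W → U.Nonempty → W.Nonempty → ∃ n : ℕ, ∃ u ∈ U, (T ^ n) u ∈ W

variable {E : Type} [NormedAddCommGroup E] [NormedSpace ℂ E]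

theorem trans_of_hyper {T : E →L[ℂ] E} (h : Hypercyclic T) : Trans T := by
  intro U W hU hW hUn hWn
  rcases subsingleton_or_nontrivial E with hE | hE
  · obtain ⟨u, hu⟩ := hUn
    obtain ⟨w, hw⟩ := hWn
    exact ⟨0, u, hu, by rwa [Subsingleton.elim ((T ^ 0) u) w]⟩
  · obtain ⟨f, hf⟩ := h
    obtain ⟨x, hxU, ⟨n, rfl⟩⟩ := hf.inter_open_nonempty U hU hUn
    have hne : ∀ x : E, (𝓝[≠] x).NeBot := fun x => Module.punctured_nhds_neBot ℂ E x
    have hfin : (range fun k : Fin n => (T ^ (k : ℕ)) f).Finite := finite_range _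
    have hd : Dense ((range fun k : ℕ => (T ^ k) f) \ (range fun k : Fin n => (T ^ (k : ℕ)) f)) :=
      hf.sdiff_finite hfin
    obtain ⟨y, hyW, ⟨m, rfl⟩, hm⟩ := hd.inter_open_nonempty W hW hWn
    have hnm : n ≤ m := by
      by_contra hlt
      exact hm ⟨⟨m, not_le.1 hlt⟩, rfl⟩
    refine ⟨m - n, (T ^ n) f, hxU, ?_⟩
    have h1 : (T ^ (m - n)) ((T ^ n) f) = (T ^ m) f := by
      have h2 : T ^ m = T ^ (m - n) * T ^ n := by rw [← pow_add, Nat.sub_add_cancel hnm]
      rw [h2]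
      rfl
    rw [h1]
    exact hyW

theorem hyper_of_trans [CompleteSpace E] [SecondCountableTopology E] {T : E →L[ℂ] E}
    (h : Trans T) : Hypercyclic T := by
  have hdense : ∀ W ∈ countableBasis E, IsOpen (⋃ n : ℕ, (fun x => (T ^ n) x) ⁻¹' W) := by
    intro W hW
    apply isOpen_iUnion
    intro n
    exact (isOpen_of_mem_countableBasis hW).preimage (T ^ n).continuous
  have hd2 : ∀ W ∈ countableBasis E, Dense (⋃ n : ℕ, (fun x => (T ^ n) x) ⁻¹' W) := by
    intro W hW
    rw [dense_iff_inter_open]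
    intro U hU hUn
    obtain ⟨n, u, hu, hu2⟩ := h U W hU (isOpen_of_mem_countableBasis hW) hUn
      (nonempty_of_mem_countableBasis hW)
    exact ⟨u, hu, mem_iUnion.2 ⟨n, hu2⟩⟩
  have hB := dense_biInter_of_isOpen (S := countableBasis E)
    (f := fun W => ⋃ n : ℕ, (fun x => (T ^ n) x) ⁻¹' W) hdense (countable_countableBasis E) hd2
  obtain ⟨x, hx⟩ := hB.nonempty
  refine ⟨x, ?_⟩
  rw [(isBasis_countableBasis E).dense_iff]
  intro W hW _
  rw [mem_iInter₂] at hx
  obtain ⟨n, hn⟩ := mem_iUnion.1 (hx W hW)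
  exact ⟨(T ^ n) x, hn, mem_range_self n⟩

/-- transfer of the dynamics along a family of intertwining operators -/
theorem transfer {E F : Type} [NormedAddCommGroup E] [NormedSpace ℂ E] [CompleteSpace E]
    [SecondCountableTopology E] [NormedAddCommGroup F] [NormedSpace ℂ F]
    (T : E →L[ℂ] E) (T' : F →L[ℂ] F)
    (h : ∀ U W : Set E, IsOpen U → IsOpen W → U.Nonempty → W.Nonempty → ∃ J : F →L[ℂ] E,
      (∀ f, T (J f) = J (T' f)) ∧ (∃ f, J f ∈ U) ∧ ∃ f, J f ∈ W) :
    (Hypercyclic T' → Hypercyclic T) ∧ (Chaotic T' → Chaotic T) := by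
  have hpow : ∀ (J : F →L[ℂ] E), (∀ f, T (J f) = J (T' f)) → ∀ (n : ℕ) f,
      (T ^ n) (J f) = J ((T' ^ n) f) := by
    intro J hJ n
    induction n with
    | zero => intro f; rfl
    | succ n ih =>
      intro f
      rw [pow_succ, pow_succ]
      show (T ^ n) (T (J f)) = J ((T' ^ n) (T' f))
      rw [hJ, ih]
  have hH : Hypercyclic T' → Hypercyclic T := by
    intro hT'
    refine hyper_of_trans fun U W hU hW hUn hWn => ?_
    obtain ⟨J, hJ, hJU, hJW⟩ := h U W hU hW hUn hWn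
    obtain ⟨n, u, hu, hu2⟩ := trans_of_hyper hT' (J ⁻¹' U) (J ⁻¹' W) (hU.preimage J.continuous)
      (hW.preimage J.continuous) hJU hJW
    exact ⟨n, J u, hu, by rw [hpow J hJ]; exact hu2⟩
  refine ⟨hH, fun hT' => ⟨hH hT'.1, ?_⟩⟩
  rw [dense_iff_inter_open]
  intro U hU hUn
  obtain ⟨J, hJ, hJU, -⟩ := h U U hU hU hUn hUn
  obtain ⟨f, hf, N, hN, hf2⟩ := hT'.2.inter_open_nonempty (J ⁻¹' U) (hU.preimage J.continuous) hJU
  exact ⟨J f, hf, N, hN, by rw [hpow J hJ, hf2]⟩

/-! ### Bochner integrals in `L ^ p` -/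

section bochner

variable {G X : Type} [MeasurableSpace G] [MeasurableSpace X] {ν : Measure G} {μ : Measure X}
  [SigmaFinite ν] [SigmaFinite μ] {p : ℝ≥0∞} [hp : Fact (1 ≤ p)]

omit [SigmaFinite μ] in
/-- the integral over a set of finite measure -/
lemma setCLM (A : Set X) (hA : MeasurableSet A) (hμA : μ A ≠ ∞) :
    ∃ Λ : Lp ℂ p μ →L[ℂ] ℂ, ∀ u, Λ u = ∫ x in A, u x ∂μ := by
  have : Fact (1 ≤ ENNReal.conjExponent p) := ⟨le_self_add⟩
  let Λ : Lp ℂ p μ →L[ℂ] ℂ :=
    (((ContinuousLinearMap.mul ℂ ℂ).lpPairing μ p (ENNReal.conjExponent p)).flip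
      (indicatorConstLp (ENNReal.conjExponent p) hA hμA (1 : ℂ)))
  refine ⟨Λ, fun u => ?_⟩
  show ((ContinuousLinearMap.mul ℂ ℂ).lpPairing μ p (ENNReal.conjExponent p)) u _ = _
  rw [ContinuousLinearMap.lpPairing_eq_integral, ← integral_indicator hA]
  apply integral_congr_ae
  filter_upwards [indicatorConstLp_coeFn (p := ENNReal.conjExponent p) (hs := hA) (hμs := hμA)
    (c := (1 : ℂ))] with y hy
  rw [hy, ContinuousLinearMap.mul_apply']
  by_cases hyA : y ∈ A
  · rw [indicator_of_mem hyA, indicator_of_mem hyA, mul_one]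
  · rw [indicator_of_notMem hyA, indicator_of_notMem hyA, mul_zero]

omit [SigmaFinite μ] in
/-- the integral of the norm over a set of finite measure -/
lemma norm_bd (A : Set X) (hμA : μ A ≠ ∞) :
    ∃ C : ℝ, ∀ u : Lp ℂ p μ, ∫ x in A, ‖u x‖ ∂μ ≤ C * ‖u‖ := by
  refine ⟨(μ A ^ (1 / (1 : ℝ≥0∞).toReal - 1 / p.toReal)).toReal, fun u => ?_⟩
  have h1 := eLpNorm_le_eLpNorm_mul_rpow_measure_univ (μ := μ.restrict A) (f := u) hp.out
    (Lp.memLp u).1.restrict
  rw [Measure.restrict_apply_univ] at h1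
  have h2 : eLpNorm u p (μ.restrict A) ≤ eLpNorm u p μ := eLpNorm_mono_measure _ Measure.restrict_le_self
  have h3 : eLpNorm u 1 (μ.restrict A) ≤
      μ A ^ (1 / (1 : ℝ≥0∞).toReal - 1 / p.toReal) * eLpNorm u p μ := by
    rw [mul_comm]
    exact h1.trans (mul_le_mul_left h2 _)
  have hfin : μ A ^ (1 / (1 : ℝ≥0∞).toReal - 1 / p.toReal) ≠ ∞ := by
    refine ENNReal.rpow_ne_top_of_nonneg ?_ hμA
    rw [ENNReal.toReal_one, div_one, sub_nonneg]
    rcases eq_or_ne p ∞ with rfl | hpt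
    · simp
    · rw [div_le_one (ENNReal.toReal_pos (zero_lt_one.trans_le hp.out).ne' hpt)]
      have := (ENNReal.toReal_le_toReal ENNReal.one_ne_top hpt).2 hp.out
      rwa [ENNReal.toReal_one] at this
  rw [integral_norm_eq_lintegral_enorm (Lp.memLp u).1.restrict, ← eLpNorm_one_eq_lintegral_enorm,
    Lp.norm_def, ← ENNReal.toReal_mul]
  exact ENNReal.toReal_mono (ENNReal.mul_ne_top hfin (Lp.eLpNorm_ne_top u)) h3

theorem coe_int (F : G → Lp ℂ p μ) (hF : Integrable F ν) (f : G → X → ℂ)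
    (hf : AEStronglyMeasurable (Function.uncurry f) (ν.prod μ))
    (hFf : ∀ g, F g =ᵐ[μ] f g) :
    ⇑(∫ g, F g ∂ν) =ᵐ[μ] fun x => ∫ g, f g x ∂ν := by
  have hprod : ∀ s : Set X, MeasurableSet s → μ s < ∞ →
      Integrable (Function.uncurry f) (ν.prod (μ.restrict s)) := by
    intro s hs hμs
    have hf' : AEStronglyMeasurable (Function.uncurry f) (ν.prod (μ.restrict s)) := by
      have h1 := Measure.prod_restrict (μ := ν) (ν := μ) univ s
      rw [Measure.restrict_univ] at h1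
      rw [h1]
      exact hf.restrict
    rw [integrable_prod_iff hf']
    obtain ⟨C, hC⟩ := norm_bd (p := p) s hμs.ne
    refine ⟨Eventually.of_forall fun g => ?_, ?_⟩
    · exact (integrableOn_Lp_of_measure_ne_top (F g) hp.out hμs.ne).congr (ae_restrict_of_ae (hFf g))
    · refine (hF.norm.const_mul C).mono' hf'.norm.integral_prod_right' (Eventually.of_forall fun g => ?_)
      rw [Real.norm_eq_abs, abs_of_nonneg (integral_nonneg fun _ => norm_nonneg _)]
      refine le_trans (le_of_eq ?_) (hC (F g))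
      refine integral_congr_ae (ae_restrict_of_ae ?_)
      filter_upwards [hFf g] with x hx
      rw [hx]
      rfl
  refine ae_eq_of_forall_setIntegral_eq_of_sigmaFinite
    (fun s _ hμs => integrableOn_Lp_of_measure_ne_top _ hp.out hμs.ne)
    (fun s hs hμs => (hprod s hs hμs).integral_prod_right) fun s hs hμs => ?_
  obtain ⟨Λ, hΛ⟩ := setCLM (p := p) s hs hμs.ne
  rw [← hΛ, ← Λ.integral_comp_comm hF]
  simp_rw [hΛ]
  rw [← integral_integral_swap (hprod s hs hμs)]
  refine integral_congr_ae (Eventually.of_forall fun g => ?_)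
  exact integral_congr_ae (ae_restrict_of_ae (hFf g))

end bochner

end Pool.Agent.Q76.CH
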