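import Pool.Agent.Q76.CH.Act

/-!
# MP_570bb5_an (helper76): homogeneous spaces `G / K`, `K` compact, `G` unimodular
-/

set_option autoImplicit false
set_option linter.unusedSectionVars false

namespace Pool.Agent.Q76.CH

open MeasureTheory Filter Topology Set TopologicalSpace
open scoped ENNReal Pointwise

variable {G : Type} [Group G] [TopologicalSpace G] [IsTopologicalGroup G] [LocallyCompactSpace G]
  [T2Space G] [SecondCountableTopology G] [MeasurableSpace G] [BorelSpace G] (ν : Measure G)
  [ν.IsHaarMeasure] [ν.IsMulRightInvariant] (K : Subgroup G) (hK : IsCompact (K : Set G))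
  [MeasurableSpace (G ⧸ K)] [BorelSpace (G ⧸ K)]

/-- the projection -/
def pj (g : G) : G ⧸ K := (g : G ⧸ K)

lemma pj_cont : Continuous (pj K) := QuotientGroup.continuous_mk

lemma pj_smul (g h : G) : g • pj K h = pj K (g * h) := rfl

/-- the invariant measure of `G / K` -/
noncomputable def muK : Measure (G ⧸ K) := ν.map (pj K)

lemma pj_mp : MeasurePreserving (pj K) ν (muK ν K) := ⟨(pj_cont K).measurable, rfl⟩

include hK in
lemma muK_fin : SigmaFinite (muK ν K) := by
  set E := CompactExhaustion.choice G
  have hcov : (⋃ n, pj K '' interior (E n)) = univ := by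
    rw [← image_iUnion, eq_univ_iff_forall]
    intro x
    obtain ⟨g, rfl⟩ := QuotientGroup.mk_surjective x
    obtain ⟨n, hn⟩ := E.exists_mem g
    exact ⟨g, mem_iUnion.2 ⟨n + 1, E.subset_interior_succ n hn⟩, rfl⟩
  refine ⟨⟨⟨fun n => pj K '' interior (E n), fun _ => trivial, fun n => ?_, hcov⟩⟩⟩
  have ho : IsOpen (pj K '' interior (E n)) :=
    QuotientGroup.isOpenQuotientMap_mk.isOpenMap _ isOpen_interior
  have h1 : pj K ⁻¹' (pj K '' interior (E n)) ⊆ (E n : Set G) * (K : Set G) := by
    have h2 : pj K ⁻¹' (pj K '' interior (E n)) = interior (E n) * (K : Set G) :=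
      QuotientGroup.preimage_image_mk_eq_mul K _
    rw [h2]
    exact Set.mul_subset_mul_right interior_subset
  unfold muK
  rw [Measure.map_apply (pj_cont K).measurable ho.measurableSet]
  exact (measure_mono h1).trans_lt ((E.isCompact n).mul hK).measure_lt_top

instance muK_inv : SMulInvariantMeasure G (G ⧸ K) (muK ν K) := by
  refine ⟨fun c s hs => ?_⟩
  have hm : Measurable (fun x : G ⧸ K => c • x) := (continuous_const_smul c).measurable
  unfold muK
  rw [Measure.map_apply (pj_cont K).measurable (hm hs), Measure.map_apply (pj_cont K).measurable hs]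
  have h1 : pj K ⁻¹' ((fun x : G ⧸ K => c • x) ⁻¹' s) = (fun g => c * g) ⁻¹' (pj K ⁻¹' s) := rfl
  rw [h1, measure_preimage_mul]

lemma orbit_mp (x : G ⧸ K) : MeasurePreserving (fun g : G => g • x) ν (muK ν K) := by
  obtain ⟨h, rfl⟩ := QuotientGroup.mk_surjective x
  exact (pj_mp ν K).comp (measurePreserving_mul_right ν h)

instance msmul2 : MeasurableSMul₂ G (G ⧸ K) := by
  have : SecondCountableTopology (G ⧸ K) := inferInstance
  infer_instance

section cont

variable {p : ℝ≥0∞} [hp : Fact (1 ≤ p)]

/-- pull back to the group -/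
noncomputable def pull : Lp ℂ p (muK ν K) → Lp ℂ p ν :=
  Lp.compMeasurePreserving (pj K) (pj_mp ν K)

lemma pull_isom : Isometry (pull ν K (p := p)) := Lp.isometry_compMeasurePreserving (pj_mp ν K)


lemma tau_cont (ht : p ≠ ∞) (f : Lp ℂ p (muK ν K)) : Continuous fun g : G => tau g f := by
  have : Fact (p ≠ ∞) := ⟨ht⟩
  rw [(pull_isom ν K).isUniformInducing.isInducing.continuous_iff]
  have h1 : (pull ν K ∘ fun g : G => tau g f) = fun g : G => (DomMulAct.mk g) • (pull ν K f) := by
    funext g
    apply Lp.ext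
    have a1 := Lp.coeFn_compMeasurePreserving (tau g f) (pj_mp ν K)
    have a2 := DomMulAct.smul_Lp_ae_eq (DomMulAct.mk g) (pull ν K f)
    have a3 := (pj_mp ν K).quasiMeasurePreserving.ae (tau_coe (μ := muK ν K) g f)
    have a4 := (measurePreserving_mul_left ν g).quasiMeasurePreserving.ae
      (Lp.coeFn_compMeasurePreserving f (pj_mp ν K))
    filter_upwards [a1, a2, a3, a4] with x b1 b2 b3 b4
    refine b1.trans (b3.trans (Eq.trans ?_ b2.symm))
    exact b4.symm
  rw [h1]
  exact (DomMulAct.continuous_mk).smul continuous_const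

end cont

end Pool.Agent.Q76.CH
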