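import Pool.Agent.Q76.CH.Quo

/-!
# MP_570bb5_an (helper76): smooth functions with compact support are dense
-/

set_option autoImplicit false
set_option linter.unusedSectionVars false

namespace Pool.Agent.Q76.CH

open MeasureTheory Filter Topology Set TopologicalSpace
open scoped ENNReal Pointwise Manifold ContDiff

section dense

variable {X : Type} [TopologicalSpace X] [T2Space X] [LocallyCompactSpace X]
  [SigmaCompactSpace X] [MeasurableSpace X] [BorelSpace X] {μ : Measure X} [μ.Regular]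
  {E : Type} [NormedAddCommGroup E] [NormedSpace ℝ E] [FiniteDimensional ℝ E]
  {H : Type} [TopologicalSpace H] (I : ModelWithCorners ℝ E H) [ChartedSpace H X]
  [IsManifold I ∞ X]

/-- smooth functions with compact support -/
def Test (X : Type) [TopologicalSpace X] [ChartedSpace H X] : Set (X → ℂ) :=
  {f | ContMDiff I 𝓘(ℝ, ℂ) ∞ f ∧ HasCompactSupport f}

lemma smooth_near (f : X → ℂ) (hf : Continuous f) (hfc : HasCompactSupport f) (δ : ℝ) (hδ : 0 < δ) :
    ∃ u ∈ Test I X, (∀ x, ‖u x - f x‖ ≤ δ) ∧ ∀ x ∉ tsupport f, u x = 0 := by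
  classical
  set t : X → Set ℂ := fun x => if x ∈ tsupport f then Metric.ball (f x) δ else {0} with ht
  have hconv : ∀ x, Convex ℝ (t x) := by
    intro x
    by_cases hx : x ∈ tsupport f
    · simp only [ht, if_pos hx]
      exact convex_ball _ _
    · simp only [ht, if_neg hx]
      exact convex_singleton _
  have hloc : ∀ x : X, ∃ c : ℂ, ∀ᶠ y in 𝓝 x, c ∈ t y := by
    intro x
    by_cases h0 : f x = 0
    · refine ⟨0, ?_⟩
      have h1 : ∀ᶠ y in 𝓝 x, ‖f y‖ < δ := by
        refine (hf.norm.tendsto x).eventually (gt_mem_nhds ?_)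
        rw [h0, norm_zero]; exact hδ
      filter_upwards [h1] with y hy
      by_cases hyt : y ∈ tsupport f
      · simp only [ht, if_pos hyt]
        rw [Metric.mem_ball, dist_comm, dist_zero_right]
        exact hy
      · simp only [ht, if_neg hyt]
        exact rfl
    · refine ⟨f x, ?_⟩
      have h1 : ∀ᶠ y in 𝓝 x, f y ≠ 0 := (hf.tendsto x).eventually_ne h0
      have h2 : ∀ᶠ y in 𝓝 x, f y ∈ Metric.ball (f x) δ :=
        (hf.tendsto x).eventually (Metric.ball_mem_nhds _ hδ)
      filter_upwards [h1, h2] with y hy1 hy2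
      have hyt : y ∈ tsupport f := subset_tsupport f hy1
      simp only [ht, if_pos hyt]
      rw [Metric.mem_ball, dist_comm]
      exact hy2
  obtain ⟨g, hg⟩ := exists_contMDiffMap_forall_mem_convex_of_local_const (n := ⊤) I hconv hloc
  have h0 : ∀ x ∉ tsupport f, g x = 0 := by
    intro x hx
    have := hg x
    simp only [ht, if_neg hx] at this
    exact this
  refine ⟨g, ⟨g.contMDiff, ?_⟩, fun x => ?_, h0⟩
  · exact HasCompactSupport.intro hfc.isCompact h0
  · by_cases hx : x ∈ tsupport f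
    · have := hg x
      simp only [ht, if_pos hx] at this
      rw [Metric.mem_ball, dist_eq_norm] at this
      exact this.le
    · rw [h0 x hx, image_eq_zero_of_notMem_tsupport hx, sub_zero, norm_zero]
      exact hδ.le

lemma test_cont {u : X → ℂ} (hu : u ∈ Test I X) : Continuous u := hu.1.continuous

lemma test_memLp {u : X → ℂ} (hu : u ∈ Test I X) (p : ℝ≥0∞) : MemLp u p μ :=
  (test_cont I hu).memLp_of_hasCompactSupport hu.2

theorem test_dense (p : ℝ≥0∞) [hp : Fact (1 ≤ p)] (ht : p ≠ (⊤ : ℝ≥0∞)) :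
    Dense {F : Lp ℂ p μ | ∃ f ∈ Test I X, ⇑F =ᵐ[μ] f} := by
  intro F
  rw [Metric.mem_closure_iff]
  intro ε hε
  obtain ⟨h, hh1, hh2, hh3, hh4⟩ := (Lp.memLp F).exists_hasCompactSupport_eLpNorm_sub_le ht
    (ε := ENNReal.ofReal (ε / 3)) (ENNReal.ofReal_pos.2 (by positivity)).ne'
  have hfin : μ (tsupport h) ≠ (⊤ : ℝ≥0∞) := hh1.isCompact.measure_lt_top.ne
  set A : ℝ := (μ (tsupport h) ^ (1 / p.toReal)).toReal with hA
  have hAt : μ (tsupport h) ^ (1 / p.toReal) ≠ (⊤ : ℝ≥0∞) :=
    ENNReal.rpow_ne_top_of_nonneg (by positivity) hfin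
  obtain ⟨u, hu, hu1, hu2⟩ := smooth_near I h hh3 hh1 (ε / 3 / (A + 1)) (by positivity)
  have hum : MemLp u p μ := test_memLp I hu p
  refine ⟨hum.toLp u, ⟨u, hu, hum.coeFn_toLp⟩, ?_⟩
  rw [dist_eq_norm, Lp.norm_def]
  have e1 : ⇑(F - hum.toLp u) =ᵐ[μ] ((⇑F - h) + (h - u)) := by
    filter_upwards [Lp.coeFn_sub F (hum.toLp u), hum.coeFn_toLp] with x a b
    rw [a, Pi.sub_apply, b]
    simp
  rw [eLpNorm_congr_ae e1]
  have e2 : eLpNorm (h - u) p μ ≤ ENNReal.ofReal (ε / 3) := by
    have e3 : (h - u) = (tsupport h).indicator (h - u) := by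
      funext x
      by_cases hx : x ∈ tsupport h
      · rw [indicator_of_mem hx]
      · rw [indicator_of_notMem hx, Pi.sub_apply, hu2 x hx, image_eq_zero_of_notMem_tsupport hx,
          sub_zero]
    rw [e3, eLpNorm_indicator_eq_eLpNorm_restrict (isClosed_tsupport h).measurableSet]
    refine (eLpNorm_le_of_ae_bound (C := ε / 3 / (A + 1)) (Eventually.of_forall fun x => ?_)).trans ?_
    · rw [Pi.sub_apply, norm_sub_rev]
      exact hu1 x
    · rw [Measure.restrict_apply_univ, ← one_div, ← ENNReal.ofReal_toReal hAt, ← hA,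
        ← ENNReal.ofReal_mul ENNReal.toReal_nonneg]
      refine ENNReal.ofReal_le_ofReal ?_
      have hA0 : 0 ≤ A := ENNReal.toReal_nonneg
      rw [mul_div_assoc', div_le_iff₀ (by positivity)]
      nlinarith
  have e4 : eLpNorm ((⇑F - h) + (h - u)) p μ ≤ ENNReal.ofReal (ε / 3) + ENNReal.ofReal (ε / 3) :=
    (eLpNorm_add_le ((Lp.memLp F).sub hh4).1 (hh4.sub hum).1 hp.out).trans (add_le_add hh2 e2)
  rw [← ENNReal.ofReal_add (by positivity) (by positivity)] at e4
  refine (ENNReal.toReal_le_of_le_ofReal (by positivity) e4).trans_lt ?_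
  linarith

end dense

end Pool.Agent.Q76.CH
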